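import Pool.Agent.Work.MP_a77660_ag.Hedge.Curve

/-!
Stein degrees of horizontal boundary components of log Calabi-Yau fibrations are unbounded in
every odd characteristic `p`, in dimension `p - 1` over `Y = Spec k`, for every coefficient, and
for uniformly `ε`-log canonical pairs when the coefficient is less than one.
-/

namespace Pool.Agent.Results.MP_a77660_ag.OddCharacteristic

open AlgebraicGeometry CategoryTheory Pool.Agent.Work.MP_a77660_ag

theorem result (p : ℕ) (hp : p.Prime) (hp2 : p ≠ 2) (c : ℚ) (hc0 : 0 < c) (hc1 : c ≤ 1) (N : ℕ) :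
    ∃ (k : Type) (_ : Field k), CharP k p ∧
      (∃ s : Finset k, Subfield.closure (s : Set k) = ⊤) ∧
      ∃ (X : Scheme.{0}) (_ : IsIntegral X) (_ : IsLocallyNoetherian X)
        (f : X ⟶ Spec (CommRingCat.of k)) (B : X → ℚ),
        Hedge.IsEpsLogCalabiYauOver (min (min c (1 - c)) (1 / p)) f B ∧
        topologicalKrullDim X = (p - 1 : ℕ) ∧
        ∃ (S : Scheme.{0}) (_ : IsIntegral S) (ι : S ⟶ X),
          IsClosedImmersion ι ∧ B (ι (genericPoint S)) = c ∧ N ≤ steinDegree (ι ≫ f) := by
  obtain ⟨m, rfl⟩ : ∃ m, p = m + 2 := ⟨p - 2, by have := hp.two_le; omega⟩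
  have : Fact (m + 2).Prime := ⟨hp⟩
  have : NeZero m := ⟨by omega⟩
  have hc : (c.num.toNat : ℚ) / c.den = c := by
    rw [← Int.cast_natCast, Int.toNat_of_nonneg (Rat.num_pos.mpr hc0).le, Rat.num_div_den]
  have hab : c.num.toNat ≤ c.den := by
    rw [← hc, div_le_one (by exact_mod_cast c.den_pos)] at hc1
    exact_mod_cast hc1
  refine ⟨Hedge.KK m N, inferInstance, inferInstance, Hedge.KK_fg, Hedge.XX m N, inferInstance,
    inferInstance, structMap (Hedge.GB m N), Hedge.bdry m N c.num.toNat c.den,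
    Hedge.isEps_XX c.den_pos hab ?_ ?_ (min_le_right _ _), Hedge.dim_XX, Hedge.SS m N,
    inferInstance, Hedge.iota m N, inferInstance, ?_, (Nat.le_succ N).trans Hedge.le_steinDegree⟩
  · rw [hc]
    exact (min_le_left _ _).trans (min_le_left _ _)
  · rw [hc]
    exact (min_le_left _ _).trans (min_le_right _ _)
  · rw [Hedge.iota_generic, Hedge.bdry, if_pos rfl, hc]

end Pool.Agent.Results.MP_a77660_ag.OddCharacteristic
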