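import Pool.Agent.Work.MP_a77660_ag.Curve

/-!
Stein degrees of horizontal boundary components of log Calabi-Yau fibrations are unbounded in
characteristic two, already for surfaces over `Y = Spec k` and coefficient one.
-/

namespace Pool.Agent.Results.MP_a77660_ag.Unbounded

open AlgebraicGeometry CategoryTheory Pool.Agent.Work.MP_a77660_ag

theorem result (N : ℕ) :
    ∃ (k : Type) (_ : Field k), CharP k 2 ∧
      (∃ s : Finset k, Subfield.closure (s : Set k) = ⊤) ∧
      ∃ (X : Scheme.{0}) (_ : IsIntegral X) (_ : IsLocallyNoetherian X)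
        (f : X ⟶ Spec (CommRingCat.of k)) (B : X → ℚ),
        IsLogCalabiYauOver f B ∧ topologicalKrullDim X = 2 ∧
        ∃ (S : Scheme.{0}) (_ : IsIntegral S) (ι : S ⟶ X),
          IsClosedImmersion ι ∧ B (ι (genericPoint S)) = 1 ∧ N ≤ steinDegree (ι ≫ f) := by
  classical
  refine ⟨KK (N + 1), inferInstance, inferInstance, ⟨Finset.univ.image aK, ?_⟩,
    XX (N + 1), inferInstance, inferInstance, structMap (GB (N + 1)),
    fun x => (bdry (N + 1) x : ℚ), isLogCalabiYau_XX, dim_XX, SS (N + 1), inferInstance,
    iota (N + 1), inferInstance, ?_, (Nat.le_succ N).trans le_steinDegree⟩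
  · rw [eq_top_iff]
    intro κ _
    exact KK_induction _ (fun i => Subfield.subset_closure (by simp)) κ
  · simp only [iota_generic, bdry, true_or, if_true, Int.cast_one]

end Pool.Agent.Results.MP_a77660_ag.Unbounded
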